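import Pool.Agent.helper88.RQ2.Spec

/-!
# Project RQ, row C5: rank three, five points
-/

set_option autoImplicit false

open Set Matroid RadonMin

namespace RadonQ2

/-- **Row C5** -/
theorem C5_proof (hGTR : GTR_stmt) (hGCO : GCO_stmt) : C5_stmt := by
  classical
  intro V _ _ _ X hra hcard hci
  set M := affMat X with hM
  have hsimp : Simp M := affMat_simp X
  have hE : M.E = (X : Set V) := rfl
  have hrk : rk M M.E = 3 := hra
  obtain ⟨E', L, D⟩ := exists_lineData M hsimp hrk
  have hE' : E' = X := by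
    have := D.coe_E
    rw [hE] at this
    exact_mod_cast this
  subst hE'
  have hcc : cc M ≤ 3 := hci
  -- the longest line is short
  have hL3 : L.card ≤ 3 := by
    by_contra hcon
    push Not at hcon
    have h1 : (L.powersetCard 3).card ≤ cc M := by
      apply card_le_cc
      intro C hC
      rw [Finset.mem_powersetCard] at hC
      exact D.circuit_in_line hC.1 hC.2
    rw [Finset.card_powersetCard] at h1
    have h2 : Nat.choose 4 3 ≤ L.card.choose 3 := Nat.choose_le_choose 3 hcon
    have h3 : Nat.choose 4 3 = 4 := by decide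
    omega
  -- two collinear triples
  have hshort := D.cc_ge_short
  rw [hcard] at hshort
  have h54 : Nat.choose 5 4 = 5 := by decide
  rw [h54] at hshort
  have ht : 1 < ((E'.powersetCard 3).filter
      (fun C : Finset V => M.IsCircuit (C : Set V))).card := by omega
  obtain ⟨C, hC, C', hC', hne⟩ := Finset.one_lt_card.1 ht
  rw [Finset.mem_filter, Finset.mem_powersetCard] at hC hC'
  obtain ⟨⟨hCX, hC3⟩, hCc⟩ := hC
  obtain ⟨⟨hCX', hC3'⟩, hCc'⟩ := hC'
  have hle : (C ∩ C').card ≤ 1 := by
    by_contra hcon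
    push Not at hcon
    obtain ⟨P, hP, hP2⟩ := Finset.exists_subset_card_eq (show 2 ≤ (C ∩ C').card from hcon)
    exact hne (D.triangles_unique hL3 hCX hCX' hC3 hC3' hCc hCc' hP2
      (hP.trans Finset.inter_subset_left) (hP.trans Finset.inter_subset_right))
  have hunion : (C ∪ C').card + (C ∩ C').card = 6 := by
    rw [Finset.card_union_add_card_inter, hC3, hC3']
  have hsubX : C ∪ C' ⊆ E' := Finset.union_subset hCX hCX'
  have hcardU : (C ∪ C').card ≤ 5 := by
    rw [← hcard]; exact Finset.card_le_card hsubX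
  have h1 : (C ∩ C').card = 1 := by omega
  have hU5 : (C ∪ C').card = 5 := by omega
  have hUX : C ∪ C' = E' := Finset.eq_of_subset_of_card_le hsubX (by rw [hU5, hcard])
  obtain ⟨p, hp⟩ := Finset.card_eq_one.1 h1
  have hpC : p ∈ C ∩ C' := by rw [hp]; exact Finset.mem_singleton_self p
  obtain ⟨hpC1, hpC2⟩ := Finset.mem_inter.1 hpC
  have he1 : (C.erase p).card = 2 := by rw [Finset.card_erase_of_mem hpC1, hC3]
  have he2 : (C'.erase p).card = 2 := by rw [Finset.card_erase_of_mem hpC2, hC3']
  obtain ⟨a, b, hab, hCe⟩ := Finset.card_eq_two.1 he1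
  obtain ⟨c, d, hcd, hCe'⟩ := Finset.card_eq_two.1 he2
  have hCeq : C = {p, a, b} := by rw [← Finset.insert_erase hpC1, hCe]
  have hCeq' : C' = {p, c, d} := by rw [← Finset.insert_erase hpC2, hCe']
  have haC : a ∈ C.erase p := by rw [hCe]; simp
  have hbC : b ∈ C.erase p := by rw [hCe]; simp
  have hcC : c ∈ C'.erase p := by rw [hCe']; simp
  have hdC : d ∈ C'.erase p := by rw [hCe']; simp
  rw [Finset.mem_erase] at haC hbC hcC hdC
  refine ⟨p, a, b, c, d, hcard, ?_, ?_, ?_, ?_⟩
  · rw [← hUX, hCeq, hCeq']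
    ext x
    simp only [Finset.coe_union, Finset.coe_insert, Finset.coe_singleton, Set.mem_union,
      Set.mem_insert_iff, Set.mem_singleton_iff]
    tauto
  · apply (hGTR V E' p a b (hCX hpC1) (hCX haC.2) (hCX hbC.2) haC.1.symm hab hbC.1.symm).1
    show M.IsCircuit ({p, a, b} : Set V)
    rw [hCeq] at hCc
    simpa using hCc
  · apply (hGTR V E' p c d (hCX' hpC2) (hCX' hcC.2) (hCX' hdC.2) hcC.1.symm hcd hdC.1.symm).1
    show M.IsCircuit ({p, c, d} : Set V)
    rw [hCeq'] at hCc'
    simpa using hCc'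
  · intro hcol
    have := (hGCO V E').2 hcol
    omega

end RadonQ2
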